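import Mathlib

/-!
# Paley's conference matrices
-/

set_option autoImplicit false

namespace Pool.Agent.Lib_helper19.PAL

open Finset

variable {F : Type} [Field F] [Fintype F] [DecidableEq F]

theorem sum_mul_shift (hF : ringChar F ≠ 2) {b : F} (hb : b ≠ 0) :
    ∑ a : F, quadraticChar F a * quadraticChar F (a + b) = -1 := by
  have h1 : ∑ a : F, quadraticChar F (1 + b * a⁻¹) = 0 := by
    rw [← quadraticChar_sum_zero hF]
    exact Equiv.sum_comp ((Equiv.inv F).trans ((Equiv.mulLeft₀ b hb).trans (Equiv.addLeft 1)))
      (fun c => quadraticChar F c)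
  have h2 : ∀ a : F, quadraticChar F a * quadraticChar F (a + b) =
      quadraticChar F (1 + b * a⁻¹) - (if a = 0 then 1 else 0) := by
    intro a
    by_cases ha : a = 0
    · subst ha
      simp
    · rw [if_neg ha, sub_zero]
      have h3 : a + b = a * (1 + b * a⁻¹) := by field_simp
      rw [h3, map_mul, ← mul_assoc, ← pow_two, quadraticChar_sq_one ha, one_mul]
  rw [Finset.sum_congr rfl (fun a _ => h2 a), Finset.sum_sub_distrib, h1]
  simp

theorem sum_sq : ∑ a : F, quadraticChar F a ^ 2 = (Fintype.card F : ℤ) - 1 := by
  have h : ∀ a : F, quadraticChar F a ^ 2 = 1 - (if a = 0 then 1 else 0) := by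
    intro a
    by_cases ha : a = 0
    · subst ha; simp
    · rw [if_neg ha, quadraticChar_sq_one ha]; norm_num
  rw [Finset.sum_congr rfl (fun a _ => h a), Finset.sum_sub_distrib]
  simp

/-- the matrix, with integer entries -/
def P (F : Type) [Field F] [Fintype F] [DecidableEq F] : Matrix (Option F) (Option F) ℤ
  | none, none => 0
  | none, some _ => 1
  | some _, none => quadraticChar F (-1)
  | some a, some b => quadraticChar F (a - b)

theorem char_pm {a : F} (ha : a ≠ 0) : quadraticChar F a = 1 ∨ quadraticChar F a = -1 :=
  quadraticChar_dichotomy ha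

theorem P_mul (hF : ringChar F ≠ 2) :
    P F * (P F).transpose = (Fintype.card F : ℤ) • (1 : Matrix (Option F) (Option F) ℤ) := by
  have hn : (-1 : F) ≠ 0 := by simp
  ext i j
  rw [Matrix.mul_apply, Fintype.sum_option, Matrix.smul_apply, Matrix.one_apply]
  simp only [Matrix.transpose_apply]
  rcases i with _ | a
  · rcases j with _ | b
    · simp [P]
    · rw [if_neg (by simp)]
      have h1 : ∑ c : F, quadraticChar F (b - c) = 0 := by
        rw [← quadraticChar_sum_zero hF]
        exact Equiv.sum_comp (Equiv.subLeft b) (fun c => quadraticChar F c)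
      have h2 : ∑ c : F, P F none (some c) * P F (some b) (some c) = 0 := by
        rw [← h1]
        exact Finset.sum_congr rfl (fun c _ => by simp only [P, one_mul])
      rw [h2, show P F none none = 0 from rfl]; simp
  · rcases j with _ | b
    · rw [if_neg (by simp)]
      have h1 : ∑ c : F, quadraticChar F (a - c) = 0 := by
        rw [← quadraticChar_sum_zero hF]
        exact Equiv.sum_comp (Equiv.subLeft a) (fun c => quadraticChar F c)
      have h2 : ∑ c : F, P F (some a) (some c) * P F none (some c) = 0 := by
        rw [← h1]
        exact Finset.sum_congr rfl (fun c _ => by simp only [P, mul_one])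
      rw [h2, show P F none none = 0 from rfl]; simp
    · by_cases hab : a = b
      · subst hab
        rw [if_pos rfl]
        have h1 : ∑ c : F, quadraticChar F (a - c) ^ 2 = (Fintype.card F : ℤ) - 1 := by
          rw [← sum_sq (F := F)]
          exact Equiv.sum_comp (Equiv.subLeft a) (fun c => quadraticChar F c ^ 2)
        have h2 : ∑ c : F, P F (some a) (some c) * P F (some a) (some c) =
            (Fintype.card F : ℤ) - 1 := by
          rw [← h1]
          exact Finset.sum_congr rfl (fun c _ => by simp only [P]; ring)
        have h3 : P F (some a) none * P F (some a) none = 1 := by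
          show quadraticChar F (-1) * quadraticChar F (-1) = 1
          rw [← pow_two, quadraticChar_sq_one hn]
        rw [h2, h3]; simp
      · rw [if_neg (by simpa using hab)]
        have hba : b - a ≠ 0 := sub_ne_zero.2 (Ne.symm hab)
        have h1 := sum_mul_shift hF hba
        have h2 : ∑ c : F, P F (some a) (some c) * P F (some b) (some c) = -1 := by
          rw [← h1]
          rw [← Equiv.sum_comp (Equiv.subLeft a)
            (fun c => quadraticChar F c * quadraticChar F (c + (b - a)))]
          refine Finset.sum_congr rfl (fun c _ => ?_)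
          simp only [P, Equiv.subLeft_apply]
          congr 2
          ring
        have h3 : P F (some a) none * P F (some b) none = 1 := by
          show quadraticChar F (-1) * quadraticChar F (-1) = 1
          rw [← pow_two, quadraticChar_sq_one hn]
        rw [h2, h3]; simp

theorem paley (F : Type) [Field F] [Fintype F] [DecidableEq F] (hF : ringChar F ≠ 2) :
    ∃ C : Matrix (Option F) (Option F) ℝ, (∀ a, C a a = 0) ∧
      (∀ a b, a ≠ b → C a b = 1 ∨ C a b = -1) ∧
      C * C.transpose = (Fintype.card F : ℝ) • 1 := by
  have hn : (-1 : F) ≠ 0 := by simp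
  refine ⟨(P F).map (fun t : ℤ => (t : ℝ)), ?_, ?_, ?_⟩
  · rintro (_ | a) <;> simp [P, Matrix.map_apply]
  · rintro (_ | a) (_ | b) hab
    · exact absurd rfl hab
    · left; simp [P, Matrix.map_apply]
    · rw [Matrix.map_apply]
      show (((quadraticChar F (-1) : ℤ)) : ℝ) = 1 ∨ (((quadraticChar F (-1) : ℤ)) : ℝ) = -1
      rcases char_pm hn with h | h
      · left; rw [h]; norm_num
      · right; rw [h]; norm_num
    · rw [Matrix.map_apply]
      have hne : a - b ≠ 0 := sub_ne_zero.2 (fun h => hab (by rw [h]))
      show (((quadraticChar F (a - b) : ℤ)) : ℝ) = 1 ∨ (((quadraticChar F (a - b) : ℤ)) : ℝ) = -1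
      rcases char_pm hne with h | h
      · left; rw [h]; norm_num
      · right; rw [h]; norm_num
  · have h := P_mul (F := F) hF
    ext i j
    have h' := congrFun (congrFun h i) j
    rw [Matrix.mul_apply, Matrix.smul_apply, Matrix.one_apply] at h' ⊢
    have h2 := congrArg (fun t : ℤ => (t : ℝ)) h'
    simp only [Matrix.transpose_apply, smul_eq_mul] at h2 ⊢
    push_cast at h2
    simp only [Matrix.map_apply]
    rw [h2]

end Pool.Agent.Lib_helper19.PAL
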